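import Pool.Agent.H72.HR.Defs2
import Pool.Agent.H56.BF.Four

open Polynomial

namespace Pool.Agent.H84.HR

open Pool.Agent.H72.BF (RP Gf)
open Pool.Agent.H72.HR

noncomputable section

theorem iterDeriv_pe (P : ℂ[X]) (θ : ℂ) (k : ℕ) :
    iteratedDeriv k (fun x : ℂ => P.eval x * Complex.exp (θ * x)) =
      fun x => (Gf 1 θ P k).eval x * Complex.exp (θ * x) := by
  induction k with
  | zero => rw [iteratedDeriv_zero]; rfl
  | succ k ih =>
    rw [iteratedDeriv_succ, ih]
    funext x
    have h1 : HasDerivAt (fun x : ℂ => (Gf 1 θ P k).eval x * Complex.exp (θ * x))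
        ((derivative (Gf 1 θ P k)).eval x * Complex.exp (θ * x) +
          (Gf 1 θ P k).eval x * (Complex.exp (θ * x) * (θ * 1))) x := by
      refine ((Gf 1 θ P k).hasDerivAt x).mul ?_
      exact ((hasDerivAt_id x).const_mul θ).cexp
    rw [h1.deriv]
    simp only [Gf, eval_add, eval_mul, eval_C]
    ring

theorem tc_eq (P : ℂ[X]) (θ : ℂ) (j : ℕ) :
    tc P θ j = ((j.factorial : ℂ))⁻¹ * (Gf 1 θ P j).eval 0 := by
  rw [Pool.Agent.H56.BF.gfs 1 θ P j, eval_finsetSum, Finset.mul_sum, tc]
  refine Finset.sum_congr rfl fun i hi => ?_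
  have hij : i ≤ j := Nat.lt_succ_iff.1 (Finset.mem_range.1 hi)
  have h1 : (derivative^[i] P).eval 0 = (i.factorial : ℂ) * P.coeff i := by
    rw [← coeff_zero_eq_eval_zero, coeff_iterate_derivative]
    simp [Nat.descFactorial_self, nsmul_eq_mul]
  rw [eval_mul, eval_C, h1]
  have h2 : (j.choose i : ℂ) * (i.factorial : ℂ) * ((j - i).factorial : ℂ) = (j.factorial : ℂ) := by
    exact_mod_cast Nat.choose_mul_factorial_mul_factorial hij
  have h3 : (j.factorial : ℂ) ≠ 0 := by exact_mod_cast j.factorial_ne_zero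
  have h4 : ((j - i).factorial : ℂ) ≠ 0 := by exact_mod_cast (j - i).factorial_ne_zero
  rw [one_pow, mul_one]
  field_simp
  rw [← h2]
  ring

theorem tsm : T_TSM := by
  intro P θ s k
  set f : ℂ → ℂ := fun x : ℂ => P.eval x * Complex.exp (θ * x) with hf
  have hdf : Differentiable ℂ f := by
    refine P.differentiable.mul ?_
    exact ((differentiable_id.const_mul θ)).cexp
  have hd : Differentiable ℂ (iteratedDeriv k f) := by
    rw [hf, iterDeriv_pe]
    refine (Gf 1 θ P k).differentiable.mul ?_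
    exact ((differentiable_id.const_mul θ)).cexp
  have h1 := Complex.hasSum_taylorSeries_of_entire hd 0 s
  have h2 : iteratedDeriv k f s = (Gf 1 θ P k).eval s * Complex.exp (θ * s) := by
    rw [hf, iterDeriv_pe]
  rw [h2] at h1
  set g : ℕ → ℂ := fun j : ℕ => tc P θ j * (j.descFactorial k : ℂ) * s ^ (j - k) with hg
  have h5 : (fun n : ℕ => ((n.factorial : ℂ))⁻¹ • (s - 0) ^ n • iteratedDeriv n
      (iteratedDeriv k f) 0) = fun n => g (n + k) := by
    funext n
    have h6 : iteratedDeriv n (iteratedDeriv k f) 0 = (Gf 1 θ P (n + k)).eval 0 := by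
      rw [iteratedDeriv_eq_iterate, iteratedDeriv_eq_iterate, ← Function.iterate_add_apply,
        ← iteratedDeriv_eq_iterate, hf, iterDeriv_pe]
      simp
    rw [h6, hg]
    simp only [smul_eq_mul, sub_zero, Nat.add_sub_cancel, tc_eq]
    have h7 : ((n + k).factorial : ℂ) = (n.factorial : ℂ) * ((n + k).descFactorial k : ℂ) := by
      have := Nat.factorial_mul_descFactorial (Nat.le_add_left k n)
      rw [Nat.add_sub_cancel] at this
      exact_mod_cast this.symm
    have h8 : (n.factorial : ℂ) ≠ 0 := by exact_mod_cast n.factorial_ne_zero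
    have h9 : ((n + k).descFactorial k : ℂ) ≠ 0 := by
      intro h
      rw [h, mul_zero] at h7
      exact (Nat.factorial_ne_zero (n + k)) (by exact_mod_cast h7)
    rw [h7]
    field_simp
  rw [h5] at h1
  have h4 := (hasSum_nat_add_iff (f := g) k).1 h1
  have h10 : ∑ i ∈ Finset.range k, g i = 0 := by
    refine Finset.sum_eq_zero fun i hi => ?_
    rw [hg]
    simp only
    rw [Nat.descFactorial_of_lt (Finset.mem_range.1 hi)]
    simp
  rwa [h10, add_zero] at h4

end

end Pool.Agent.H84.HR
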