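import Pool.Agent.H72.HR.Defs2

open Polynomial

namespace Pool.Agent.H84.HR

open Pool.Agent.H72.BF (RP Gf binP)
open Pool.Agent.H72.HR

noncomputable section

/-- weighted coefficient sum -/
def Sm (x : ℝ) (N : ℕ) (P : ℂ[X]) : ℝ := ∑ j ∈ Finset.range N, ‖P.coeff j‖ * x ^ j

theorem Sm_nonneg {x : ℝ} (hx : 0 ≤ x) (N : ℕ) (P : ℂ[X]) : 0 ≤ Sm x N P :=
  Finset.sum_nonneg fun j _ => by positivity

theorem cauchy_le (f g : ℕ → ℝ) (hf : ∀ i, 0 ≤ f i) (hg : ∀ i, 0 ≤ g i) (N : ℕ) :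
    ∑ j ∈ Finset.range N, ∑ i ∈ Finset.range (j + 1), f i * g (j - i) ≤
      (∑ j ∈ Finset.range N, f j) * ∑ j ∈ Finset.range N, g j := by
  rw [Finset.sum_range_diag_flip N (fun i j => f i * g j), Finset.sum_mul]
  refine Finset.sum_le_sum fun m _ => ?_
  rw [Finset.mul_sum]
  refine Finset.sum_le_sum_of_subset_of_nonneg ?_ fun i _ _ => mul_nonneg (hf m) (hg i)
  intro i hi
  simp only [Finset.mem_range] at hi ⊢
  omega

theorem Sm_mul {x : ℝ} (hx : 0 ≤ x) (N : ℕ) (P Q : ℂ[X]) :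
    Sm x N (P * Q) ≤ Sm x N P * Sm x N Q := by
  refine le_trans ?_ (cauchy_le (fun i => ‖P.coeff i‖ * x ^ i) (fun i => ‖Q.coeff i‖ * x ^ i)
    (fun i => by positivity) (fun i => by positivity) N)
  refine Finset.sum_le_sum fun j _ => ?_
  rw [coeff_mul, Finset.Nat.sum_antidiagonal_eq_sum_range_succ
    (fun a b => P.coeff a * Q.coeff b)]
  refine le_trans (mul_le_mul_of_nonneg_right (norm_sum_le _ _) (by positivity)) ?_
  rw [Finset.sum_mul]
  refine Finset.sum_le_sum fun i hi => ?_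
  have hij : i ≤ j := Nat.lt_succ_iff.1 (Finset.mem_range.1 hi)
  rw [norm_mul]
  have : x ^ j = x ^ i * x ^ (j - i) := by rw [← pow_add]; congr 1; omega
  rw [this]
  exact le_of_eq (by ring)

theorem sum_range_le_of (f : ℕ → ℝ) (hf : ∀ i, 0 ≤ f i) (s : Finset ℕ)
    (h : ∀ j, j ∉ s → f j = 0) (N : ℕ) : ∑ j ∈ Finset.range N, f j ≤ ∑ j ∈ s, f j := by
  rw [← Finset.sum_filter_of_ne (s := Finset.range N) (p := fun j => j ∈ s)
    (fun j _ hj => by by_contra hh; exact hj (h j hh))]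
  refine Finset.sum_le_sum_of_subset_of_nonneg ?_ fun i _ _ => hf i
  intro i hi
  exact (Finset.mem_filter.1 hi).2

theorem Sm_one_le {x : ℝ} (hx : 0 ≤ x) (N : ℕ) : Sm x N 1 ≤ 1 := by
  rw [Sm]
  calc ∑ j ∈ Finset.range N, ‖(1 : ℂ[X]).coeff j‖ * x ^ j
      ≤ ∑ j ∈ ({0} : Finset ℕ), ‖(1 : ℂ[X]).coeff j‖ * x ^ j := by
        refine sum_range_le_of _ (fun j => by positivity) _ (fun j h => ?_) N
        rw [coeff_one, if_neg (by simpa using h)]
        simp
    _ ≤ 1 := by simp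

theorem Sm_pow {x : ℝ} (hx : 0 ≤ x) (N : ℕ) (P : ℂ[X]) (l : ℕ) :
    Sm x N (P ^ l) ≤ Sm x N P ^ l := by
  induction l with
  | zero => simpa using Sm_one_le hx N
  | succ l ih =>
    rw [pow_succ, pow_succ]
    exact (Sm_mul hx N _ _).trans (mul_le_mul_of_nonneg_right ih (Sm_nonneg hx N P))

theorem Sm_C_mul {x : ℝ} (N : ℕ) (a : ℂ) (P : ℂ[X]) :
    Sm x N (C a * P) = ‖a‖ * Sm x N P := by
  rw [Sm, Sm, Finset.mul_sum]
  refine Finset.sum_congr rfl fun j _ => ?_
  rw [coeff_C_mul, norm_mul]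
  ring

theorem Sm_X_sub {x : ℝ} (hx : 0 ≤ x) (N : ℕ) (i : ℕ) :
    Sm x N (X - C (i : ℂ)) ≤ x + i := by
  rw [Sm]
  calc ∑ j ∈ Finset.range N, ‖(X - C (i : ℂ) : ℂ[X]).coeff j‖ * x ^ j
      ≤ ∑ j ∈ ({0, 1} : Finset ℕ), ‖(X - C (i : ℂ) : ℂ[X]).coeff j‖ * x ^ j := by
        refine sum_range_le_of _ (fun j => by positivity) _ (fun j h => ?_) N
        simp only [Finset.mem_insert, Finset.mem_singleton, not_or] at h
        have h1 : (X - C (i : ℂ) : ℂ[X]).coeff j = 0 := by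
          rw [coeff_sub, coeff_X, coeff_C, if_neg (fun hh => h.2 hh.symm), if_neg h.1, sub_zero]
        rw [h1]
        simp
    _ = x + i := by
        rw [Finset.sum_pair (by norm_num)]
        simp [coeff_X]
        ring

theorem Sm_prod {x : ℝ} (hx : 0 ≤ x) (N a : ℕ) :
    Sm x N (∏ i ∈ Finset.range a, (X - C (i : ℂ))) ≤ (x + a) ^ a := by
  have key : ∀ b ≤ a, Sm x N (∏ i ∈ Finset.range b, (X - C (i : ℂ))) ≤ (x + a) ^ b := by
    intro b
    induction b with
    | zero => intro _; simpa using Sm_one_le hx N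
    | succ b ih =>
      intro hb
      rw [Finset.prod_range_succ, pow_succ]
      refine (Sm_mul hx N _ _).trans (mul_le_mul (ih (by omega)) ?_ (Sm_nonneg hx N _)
        (by positivity))
      refine (Sm_X_sub hx N b).trans ?_
      have : (b : ℝ) ≤ a := by exact_mod_cast (by omega : b ≤ a)
      linarith
  exact key a le_rfl

theorem pow_div_fact_le (h a : ℕ) : (h : ℝ) ^ a / a.factorial ≤ Real.exp h := by
  have h1 := Real.sum_le_exp_of_nonneg (x := (h : ℝ)) (Nat.cast_nonneg h) (a + 1)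
  refine le_trans ?_ h1
  exact Finset.single_le_sum (f := fun i => (h : ℝ) ^ i / i.factorial)
    (fun i _ => by positivity) (Finset.self_mem_range_succ a)

theorem Sm_binP (h a N : ℕ) (R : ℝ) (hR : 1 ≤ R) (ha : a ≤ h) :
    Sm (R * h) N (binP a) ≤ Real.exp (h * (2 + Real.log R)) := by
  have hR0 : 0 < R := by linarith
  have hx : 0 ≤ R * h := by positivity
  rw [binP, Sm_C_mul]
  have h1 : ‖((a.factorial : ℂ))⁻¹‖ = ((a.factorial : ℝ))⁻¹ := by simp
  rw [h1]
  have h2 : Sm (R * h) N (∏ i ∈ Finset.range a, (X - C (i : ℂ))) ≤ (2 * R * h) ^ a := by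
    refine (Sm_prod hx N a).trans (pow_le_pow_left₀ (by positivity) ?_ a)
    have : (a : ℝ) ≤ h := by exact_mod_cast ha
    nlinarith [(Nat.cast_nonneg h : (0 : ℝ) ≤ h)]
  have h3 : (2 * R) ^ a ≤ (2 * R) ^ h := pow_le_pow_right₀ (by linarith) ha
  have h4 := pow_div_fact_le h a
  have h5 : (2 * R) ^ h ≤ Real.exp (h * (1 + Real.log R)) := by
    have e1 : Real.exp (h * (1 + Real.log R)) = (Real.exp 1 * R) ^ h := by
      rw [Real.exp_nat_mul, Real.exp_add, Real.exp_log hR0]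
    rw [e1]
    refine pow_le_pow_left₀ (by positivity) ?_ h
    have := Real.add_one_le_exp (1 : ℝ)
    nlinarith
  calc ((a.factorial : ℝ))⁻¹ * Sm (R * h) N (∏ i ∈ Finset.range a, (X - C (i : ℂ)))
      ≤ ((a.factorial : ℝ))⁻¹ * (2 * R * h) ^ a :=
        mul_le_mul_of_nonneg_left h2 (by positivity)
    _ = (2 * R) ^ a * ((h : ℝ) ^ a / a.factorial) := by rw [mul_pow]; ring
    _ ≤ Real.exp (h * (1 + Real.log R)) * Real.exp h :=
        mul_le_mul (h3.trans h5) h4 (by positivity) (Real.exp_pos _).le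
    _ = Real.exp (h * (2 + Real.log R)) := by rw [← Real.exp_add]; congr 1; ring

theorem Sm_RP (h m l L N : ℕ) (R : ℝ) (hR : 1 ≤ R) (hm : m ≤ h) (hl : l + 1 ≤ L) :
    Sm (R * h) N (RP h m l) ≤ Real.exp (2 * (h * L * (1 + Real.log R))) := by
  have hx : 0 ≤ R * h := by positivity
  have hlog : 0 ≤ Real.log R := Real.log_nonneg hR
  rw [RP]
  have h1 := Sm_binP h m N R hR hm
  have h2 := Sm_binP h h N R hR le_rfl
  calc Sm (R * h) N (binP m * binP h ^ l)
      ≤ Sm (R * h) N (binP m) * Sm (R * h) N (binP h) ^ l := by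
        refine (Sm_mul hx N _ _).trans ?_
        exact mul_le_mul_of_nonneg_left (Sm_pow hx N _ l) (Sm_nonneg hx N _)
    _ ≤ Real.exp (h * (2 + Real.log R)) * Real.exp (h * (2 + Real.log R)) ^ l := by
        refine mul_le_mul h1 (pow_le_pow_left₀ (Sm_nonneg hx N _) h2 l) ?_ (Real.exp_pos _).le
        exact pow_nonneg (Sm_nonneg hx N _) l
    _ = Real.exp ((l + 1 : ℕ) * (h * (2 + Real.log R))) := by
        rw [← Real.exp_nat_mul, ← Real.exp_add]
        congr 1
        push_cast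
        ring
    _ ≤ Real.exp (2 * (h * L * (1 + Real.log R))) := by
        refine Real.exp_le_exp.2 ?_
        have hl' : ((l + 1 : ℕ) : ℝ) ≤ L := by exact_mod_cast hl
        have h3 : 0 ≤ (h : ℝ) * (2 + Real.log R) := by positivity
        calc ((l + 1 : ℕ) : ℝ) * (h * (2 + Real.log R)) ≤ L * (h * (2 + Real.log R)) :=
              mul_le_mul_of_nonneg_right hl' h3
          _ ≤ 2 * (h * L * (1 + Real.log R)) := by
              have : 0 ≤ (h : ℝ) * L * Real.log R := by positivity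
              nlinarith

theorem Sm_tc (P : ℂ[X]) (θ : ℂ) (N : ℕ) (x : ℝ) (hx : 0 ≤ x) :
    (∑ j ∈ Finset.range N, ‖tc P θ j‖ * x ^ j) ≤ Sm x N P * Real.exp (‖θ‖ * x) := by
  have h1 : (∑ j ∈ Finset.range N, ‖tc P θ j‖ * x ^ j) ≤
      (∑ j ∈ Finset.range N, ‖P.coeff j‖ * x ^ j) *
        ∑ j ∈ Finset.range N, (‖θ‖ * x) ^ j / j.factorial := by
    refine le_trans ?_ (cauchy_le (fun i => ‖P.coeff i‖ * x ^ i)
      (fun i => (‖θ‖ * x) ^ i / i.factorial) (fun i => by positivity) (fun i => by positivity) N)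
    refine Finset.sum_le_sum fun j _ => ?_
    rw [tc]
    refine le_trans (mul_le_mul_of_nonneg_right (norm_sum_le _ _) (by positivity)) ?_
    rw [Finset.sum_mul]
    refine Finset.sum_le_sum fun i hi => ?_
    have hij : i ≤ j := Nat.lt_succ_iff.1 (Finset.mem_range.1 hi)
    rw [norm_div, norm_mul, norm_pow, Complex.norm_natCast, mul_pow]
    have : x ^ j = x ^ i * x ^ (j - i) := by rw [← pow_add]; congr 1; omega
    rw [this]
    exact le_of_eq (by ring)
  refine h1.trans (mul_le_mul_of_nonneg_left ?_ (Sm_nonneg hx N P))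
  exact Real.sum_le_exp_of_nonneg (by positivity) N

theorem tcb : T_TCB := by
  refine ⟨2, by norm_num, ?_⟩
  intro h L m l N R θ h1 hm hl hR
  have hx : 0 ≤ R * h := by positivity
  refine (Sm_tc (RP h m l) θ N (R * h) hx).trans ?_
  refine (mul_le_mul_of_nonneg_right (Sm_RP h m l L N R hR hm hl) (Real.exp_pos _).le).trans ?_
  rw [← Real.exp_add]
  refine Real.exp_le_exp.2 ?_
  have : 0 ≤ ‖θ‖ * (R * h) := by positivity
  linarith

end

end Pool.Agent.H84.HR
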