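import Pool.Agent.H72.HR.Defs2
import Pool.Agent.H84.HR.TCB

open Polynomial

namespace Pool.Agent.H84.HR

open Pool.Agent.H72.BF (RP Gf binP)
open Pool.Agent.H72.HR

set_option linter.unusedSectionVars false
set_option linter.unusedVariables false

noncomputable section

section
variable {ρ τ : Type} [Fintype ρ] [Fintype τ] [DecidableEq ρ] [DecidableEq τ]
variable {n c w h g A B Q : ℕ}

theorem exists_Lam_bound (lam : Fin n → ℂ) (q : Fin n → ρ → τ → ℤ) :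
    ∃ M : ℝ, 0 ≤ M ∧ ∀ i a, ‖Lam lam q i a‖ ≤ M := by
  refine ⟨∑ i, ∑ a, ‖Lam lam q i a‖, by positivity, fun i a => ?_⟩
  refine le_trans ?_ (Finset.single_le_sum (f := fun i => ∑ a, ‖Lam lam q i a‖)
    (fun i _ => by positivity) (Finset.mem_univ i))
  exact Finset.single_le_sum (f := fun a => ‖Lam lam q i a‖) (fun a _ => by positivity)
    (Finset.mem_univ a)

theorem pow_le_exp_h (hgh : g ^ Q ≤ h) (hg : 1 ≤ g) : ((g ^ (Q - A) : ℕ) : ℝ) ≤ Real.exp h := by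
  have h1 : g ^ (Q - A) ≤ g ^ Q := Nat.pow_le_pow_right hg (Nat.sub_le _ _)
  have h2 : ((g ^ (Q - A) : ℕ) : ℝ) ≤ h := by exact_mod_cast h1.trans hgh
  have h3 := Real.add_one_le_exp (h : ℝ)
  linarith

theorem mu_le (hgh : g ^ Q ≤ h) (hg : 1 ≤ g) (u : Ux ρ τ h (g ^ (Q - B)) (g ^ (Q - A))) (a : τ) :
    ((u.2 a : ℕ) : ℝ) ≤ Real.exp h := by
  have h1 : ((u.2 a : ℕ) : ℝ) ≤ ((g ^ (Q - A) : ℕ) : ℝ) := by exact_mod_cast (u.2 a).2.le
  exact h1.trans (pow_le_exp_h hgh hg)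

theorem one_add_le_exp_mul {x : ℝ} (hx : 0 ≤ x) (hh : 1 ≤ h) : 1 + x ≤ Real.exp (x * h) := by
  have h1 := Real.add_one_le_exp x
  have h2 : (1 : ℝ) ≤ h := by exact_mod_cast hh
  have h3 : Real.exp x ≤ Real.exp (x * h) := Real.exp_le_exp.2 (by nlinarith)
  linarith

theorem abs_C0_le {C0 x : ℝ} (hx : x ≤ Real.exp (C0 * h)) : x ≤ Real.exp (|C0| * h) :=
  hx.trans (Real.exp_le_exp.2 (mul_le_mul_of_nonneg_right (le_abs_self C0) (Nat.cast_nonneg h)))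

variable {lam : Fin n → ℂ} {q : Fin n → ρ → τ → ℤ} {ν : Fin c → τ} {k : ρ → Fin c → ℤ}
  {E : Fin c → τ → ℤ} {C0 M : ℝ}

theorem norm_ga_le (hh : 1 ≤ h) (hgh : g ^ Q ≤ h) (hg : 1 ≤ g)
    (hE : ∀ l a, |(E l a : ℝ)| ≤ Real.exp (C0 * h))
    (u : Ux ρ τ h (g ^ (Q - B)) (g ^ (Q - A))) (a : τ) :
    ‖(ga ν E u a : ℂ)‖ ≤ Real.exp ((c + |C0| + 1) * h) := by
  have e0 : (1 : ℝ) ≤ Real.exp (|C0| * h) := Real.one_le_exp (by positivity)
  have h1 : ‖(ga ν E u a : ℂ)‖ ≤ ((u.2 a : ℕ) : ℝ) + ∑ l, |(E l a : ℝ)| * ((u.2 (ν l) : ℕ) : ℝ) := by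
    rw [ga]
    push_cast
    refine (norm_sub_le _ _).trans (add_le_add (by simp) ?_)
    refine (norm_sum_le _ _).trans (Finset.sum_le_sum fun l _ => ?_)
    rw [norm_mul, Complex.norm_intCast, Complex.norm_natCast]
  have h2 : ∑ l, |(E l a : ℝ)| * ((u.2 (ν l) : ℕ) : ℝ) ≤
      ∑ _l : Fin c, Real.exp (|C0| * h) * Real.exp h :=
    Finset.sum_le_sum fun l _ => mul_le_mul (abs_C0_le (hE l a)) (mu_le hgh hg u _)
      (Nat.cast_nonneg _) (Real.exp_pos _).le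
  rw [Finset.sum_const, Finset.card_univ, Fintype.card_fin, nsmul_eq_mul] at h2
  have h3 := mu_le hgh hg u a
  have h4 := one_add_le_exp_mul (x := (c : ℝ)) (Nat.cast_nonneg c) hh
  have h5 : Real.exp ((c + |C0| + 1) * h) =
      Real.exp (c * h) * (Real.exp (|C0| * h) * Real.exp h) := by
    rw [← Real.exp_add, ← Real.exp_add]; congr 1; ring
  rw [h5]
  have e1 : Real.exp h ≤ Real.exp (|C0| * h) * Real.exp h :=
    le_mul_of_one_le_left (Real.exp_pos _).le e0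
  have e2 : 0 < Real.exp (|C0| * h) * Real.exp (h : ℝ) := by positivity
  nlinarith

theorem norm_yy_le (hh : 1 ≤ h)
    (hk : ∀ i l, |(k i l : ℝ)| ≤ Real.exp (C0 * h)) (hE : ∀ l a, |(E l a : ℝ)| ≤ Real.exp (C0 * h))
    (hM0 : 0 ≤ M) (hM : ∀ i a, ‖Lam lam q i a‖ ≤ M) (i : ρ) (l : Fin c) :
    ‖yy lam q k E i l‖ ≤ Real.exp ((|C0| + Fintype.card τ * M) * h) := by
  rw [yy]
  have h1 : ‖((k i l : ℂ) + ∑ a, (E l a : ℂ) * Lam lam q i a)‖ ≤
      Real.exp (|C0| * h) + ∑ _a : τ, Real.exp (|C0| * h) * M := by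
    refine (norm_add_le _ _).trans (add_le_add ?_ ?_)
    · rw [Complex.norm_intCast]; exact abs_C0_le (hk i l)
    · refine (norm_sum_le _ _).trans (Finset.sum_le_sum fun a _ => ?_)
      rw [norm_mul, Complex.norm_intCast]
      exact mul_le_mul (abs_C0_le (hE l a)) (hM i a) (norm_nonneg _) (Real.exp_pos _).le
  rw [Finset.sum_const, Finset.card_univ, nsmul_eq_mul] at h1
  have h2 := one_add_le_exp_mul (x := (Fintype.card τ : ℝ) * M) (by positivity) hh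
  have h3 : Real.exp ((|C0| + Fintype.card τ * M) * h) =
      Real.exp (|C0| * h) * Real.exp (Fintype.card τ * M * h) := by
    rw [← Real.exp_add]; congr 1; ring
  rw [h3]
  have e2 : 0 < Real.exp (|C0| * h) := Real.exp_pos _
  nlinarith

theorem norm_ym_le (hh : 1 ≤ h) (hgh : g ^ Q ≤ h) (hg : 1 ≤ g)
    (hk : ∀ i l, |(k i l : ℝ)| ≤ Real.exp (C0 * h)) (hE : ∀ l a, |(E l a : ℝ)| ≤ Real.exp (C0 * h))
    (hM0 : 0 ≤ M) (hM : ∀ i a, ‖Lam lam q i a‖ ≤ M) (I : Fin w → ρ)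
    (u : Ux ρ τ h (g ^ (Q - B)) (g ^ (Q - A))) (j : Fin w) :
    ‖ym lam q ν k E I u j‖ ≤ Real.exp ((c + (|C0| + Fintype.card τ * M) + 1) * h) := by
  rw [ym]
  have h1 : ‖∑ l, yy lam q k E (I j) l * ((u.2 (ν l) : ℕ) : ℂ)‖ ≤
      ∑ _l : Fin c, Real.exp ((|C0| + Fintype.card τ * M) * h) * Real.exp h := by
    refine (norm_sum_le _ _).trans (Finset.sum_le_sum fun l _ => ?_)
    rw [norm_mul, Complex.norm_natCast]
    exact mul_le_mul (norm_yy_le hh hk hE hM0 hM _ _) (mu_le hgh hg u _) (Nat.cast_nonneg _)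
      (Real.exp_pos _).le
  rw [Finset.sum_const, Finset.card_univ, Fintype.card_fin, nsmul_eq_mul] at h1
  have h2 := one_add_le_exp_mul (x := (c : ℝ)) (Nat.cast_nonneg c) hh
  have h3 : Real.exp ((c + (|C0| + Fintype.card τ * M) + 1) * h) =
      Real.exp (c * h) * (Real.exp ((|C0| + Fintype.card τ * M) * h) * Real.exp h) := by
    rw [← Real.exp_add, ← Real.exp_add]; congr 1; ring
  rw [h3]
  have e2 : 0 < Real.exp ((|C0| + Fintype.card τ * M) * h) * Real.exp (h : ℝ) := by positivity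
  nlinarith

theorem norm_km_le (hh : 1 ≤ h) (hgh : g ^ Q ≤ h) (hg : 1 ≤ g)
    (hk : ∀ i l, |(k i l : ℝ)| ≤ Real.exp (C0 * h))
    (u : Ux ρ τ h (g ^ (Q - B)) (g ^ (Q - A))) (i : ρ) :
    ‖(km ν k u i : ℂ)‖ ≤ Real.exp ((c + |C0| + 1) * h) := by
  rw [km]
  push_cast
  have h1 : ‖∑ l, (k i l : ℂ) * ((u.2 (ν l) : ℕ) : ℂ)‖ ≤
      ∑ _l : Fin c, Real.exp (|C0| * h) * Real.exp h := by
    refine (norm_sum_le _ _).trans (Finset.sum_le_sum fun l _ => ?_)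
    rw [norm_mul, Complex.norm_natCast, Complex.norm_intCast]
    exact mul_le_mul (abs_C0_le (hk i l)) (mu_le hgh hg u _) (Nat.cast_nonneg _)
      (Real.exp_pos _).le
  rw [Finset.sum_const, Finset.card_univ, Fintype.card_fin, nsmul_eq_mul] at h1
  have h2 := one_add_le_exp_mul (x := (c : ℝ)) (Nat.cast_nonneg c) hh
  have h3 : Real.exp ((c + |C0| + 1) * h) =
      Real.exp (c * h) * (Real.exp (|C0| * h) * Real.exp h) := by
    rw [← Real.exp_add, ← Real.exp_add]; congr 1; ring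
  rw [h3]
  have e2 : 0 < Real.exp (|C0| * h) * Real.exp (h : ℝ) := by positivity
  nlinarith

theorem norm_th_le (hM0 : 0 ≤ M) (hM : ∀ i a, ‖Lam lam q i a‖ ≤ M)
    (u : Ux ρ τ h (g ^ (Q - B)) (g ^ (Q - A))) (i : ρ) :
    ‖th lam q u i‖ ≤ Fintype.card τ * M * (g : ℝ) ^ (Q - A) := by
  rw [th]
  have h1 : ‖∑ a, ((u.2 a : ℕ) : ℂ) * Lam lam q i a‖ ≤ ∑ _a : τ, (g : ℝ) ^ (Q - A) * M := by
    refine (norm_sum_le _ _).trans (Finset.sum_le_sum fun a _ => ?_)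
    rw [norm_mul, Complex.norm_natCast]
    refine mul_le_mul ?_ (hM i a) (norm_nonneg _) (by positivity)
    exact_mod_cast (u.2 a).2.le
  rw [Finset.sum_const, Finset.card_univ, nsmul_eq_mul] at h1
  linarith [h1]

theorem log_cond (A : ℕ) {g : ℕ} (hg : (2 * A + 1) ^ 2 ≤ g) : 1 + A * Real.log g ≤ g := by
  have hg1 : 1 ≤ g := le_trans (Nat.one_le_pow _ _ (by omega)) hg
  have hg0 : (0 : ℝ) < g := by exact_mod_cast hg1
  have hs : (2 * (A : ℝ) + 1) ≤ Real.sqrt g := by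
    refine Real.le_sqrt_of_sq_le ?_
    exact_mod_cast hg
  have h1 : Real.log g ≤ 2 * Real.sqrt g := by
    have e1 : Real.log g = 2 * Real.log (Real.sqrt g) := by
      rw [Real.log_sqrt hg0.le]; ring
    rw [e1]
    have e2 := Real.log_le_sub_one_of_pos (Real.sqrt_pos.2 hg0)
    linarith
  have h2 : Real.sqrt g * Real.sqrt g = g := Real.mul_self_sqrt hg0.le
  have h3 : (0 : ℝ) ≤ A := Nat.cast_nonneg A
  have h4 : (1 : ℝ) ≤ Real.sqrt g := by linarith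
  nlinarith [mul_le_mul_of_nonneg_left h1 h3]

/-- weighted sums of Taylor coefficients -/
theorem tc_bound (c0 : ℝ) (hc0 : 0 < c0)
    (htcb : ∀ (h L m l N : ℕ) (R : ℝ) (θ : ℂ), 1 ≤ h → m ≤ h → l + 1 ≤ L → 1 ≤ R →
      (∑ j ∈ Finset.range N, ‖tc (RP h m l) θ j‖ * (R * h) ^ j) ≤
        Real.exp (c0 * (h * L * (1 + Real.log R) + ‖θ‖ * (R * h))))
    (hh : 1 ≤ h) (hAQ : A ≤ Q) (hB : 1 ≤ B) (hBQ : B ≤ Q) (hg : (2 * A + 1) ^ 2 ≤ g)
    (hM0 : 0 ≤ M) (hM : ∀ i a, ‖Lam lam q i a‖ ≤ M) (r : ℝ) (hr : 1 ≤ r)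
    (u : Ux ρ τ h (g ^ (Q - B)) (g ^ (Q - A))) (i : ρ) (N : ℕ) :
    (∑ j ∈ Finset.range N, ‖tc (rp u i) (th lam q u i) j‖ * (r * (h * (g : ℝ) ^ A)) ^ j) ≤
      Real.exp (c0 * (1 + Real.log r + Fintype.card τ * M * r) * (h * (g : ℝ) ^ Q)) := by
  have hg1 : 1 ≤ g := le_trans (Nat.one_le_pow _ _ (by omega)) hg
  have hg0 : (1 : ℝ) ≤ g := by exact_mod_cast hg1
  have hR : 1 ≤ r * (g : ℝ) ^ A := one_le_mul_of_one_le_of_one_le hr (one_le_pow₀ hg0)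
  have h1 := htcb h (g ^ (Q - B)) (u.1 i).1 (u.1 i).2 N (r * (g : ℝ) ^ A) (th lam q u i) hh
    (u.1 i).1.2.le (u.1 i).2.2 hR
  have e1 : r * (g : ℝ) ^ A * (h : ℝ) = r * (h * (g : ℝ) ^ A) := by ring
  rw [e1] at h1
  refine le_trans h1 (Real.exp_le_exp.2 ?_)
  rw [mul_assoc c0]
  refine mul_le_mul_of_nonneg_left ?_ hc0.le
  have hlr : 0 ≤ Real.log r := Real.log_nonneg hr
  have hlg : 0 ≤ Real.log g := Real.log_nonneg hg0
  have hlog : Real.log (r * (g : ℝ) ^ A) = Real.log r + A * Real.log g := by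
    rw [Real.log_mul (by linarith) (by positivity), Real.log_pow]
  have h2 : (h : ℝ) * ((g ^ (Q - B) : ℕ) : ℝ) * (1 + Real.log (r * (g : ℝ) ^ A)) ≤
      (1 + Real.log r) * (h * (g : ℝ) ^ Q) := by
    rw [hlog]
    have h3 : 1 + (Real.log r + A * Real.log g) ≤ (1 + Real.log r) * g := by
      have h4 := log_cond A hg
      have h5 : 0 ≤ Real.log r * (A * Real.log g) := by positivity
      have h6 : (1 + Real.log r) * (1 + A * Real.log g) ≤ (1 + Real.log r) * g :=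
        mul_le_mul_of_nonneg_left h4 (by positivity)
      nlinarith
    have h7 : (g : ℝ) ^ (Q - B) * g ≤ (g : ℝ) ^ Q := by
      rw [← pow_succ]
      exact pow_le_pow_right₀ hg0 (by omega)
    push_cast
    calc (h : ℝ) * (g : ℝ) ^ (Q - B) * (1 + (Real.log r + A * Real.log g))
        ≤ (h : ℝ) * (g : ℝ) ^ (Q - B) * ((1 + Real.log r) * g) :=
          mul_le_mul_of_nonneg_left h3 (by positivity)
      _ = (1 + Real.log r) * h * ((g : ℝ) ^ (Q - B) * g) := by ring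
      _ ≤ (1 + Real.log r) * h * (g : ℝ) ^ Q := mul_le_mul_of_nonneg_left h7 (by positivity)
      _ = (1 + Real.log r) * (h * (g : ℝ) ^ Q) := by ring
  have h3 : ‖th lam q u i‖ * (r * (h * (g : ℝ) ^ A)) ≤
      Fintype.card τ * M * r * (h * (g : ℝ) ^ Q) := by
    have h4 := norm_th_le (B := B) hM0 hM u i
    have h5 : (g : ℝ) ^ (Q - A) * (g : ℝ) ^ A = (g : ℝ) ^ Q := by
      rw [← pow_add]; congr 1; omega
    calc ‖th lam q u i‖ * (r * (h * (g : ℝ) ^ A))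
        ≤ Fintype.card τ * M * (g : ℝ) ^ (Q - A) * (r * (h * (g : ℝ) ^ A)) :=
          mul_le_mul_of_nonneg_right h4 (by positivity)
      _ = Fintype.card τ * M * r * (h * ((g : ℝ) ^ (Q - A) * (g : ℝ) ^ A)) := by ring
      _ = _ := by rw [h5]
  linarith

theorem card_Ux_le (hh : 1 ≤ h) (hgh : g ^ Q ≤ h) (hg : 1 ≤ g) :
    (Fintype.card (Ux ρ τ h (g ^ (Q - B)) (g ^ (Q - A))) : ℝ) ≤
      Real.exp ((2 * Fintype.card ρ + Fintype.card τ) * h) := by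
  have h1 : Fintype.card (Ux ρ τ h (g ^ (Q - B)) (g ^ (Q - A))) =
      (h * g ^ (Q - B)) ^ Fintype.card ρ * (g ^ (Q - A)) ^ Fintype.card τ := by
    simp [Ux, Fintype.card_prod]
  rw [h1]
  have h2 : (h : ℝ) ≤ Real.exp h := by linarith [Real.add_one_le_exp (h : ℝ)]
  have h3 := pow_le_exp_h (A := A) hgh hg
  have h4 := pow_le_exp_h (A := B) hgh hg
  have h5 : ((h * g ^ (Q - B) : ℕ) : ℝ) ≤ Real.exp h * Real.exp h := by
    rw [Nat.cast_mul]
    exact mul_le_mul h2 h4 (Nat.cast_nonneg _) (Real.exp_pos _).le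
  rw [Nat.cast_mul, Nat.cast_pow, Nat.cast_pow]
  refine (mul_le_mul (pow_le_pow_left₀ (Nat.cast_nonneg _) h5 _)
    (pow_le_pow_left₀ (Nat.cast_nonneg _) h3 _) (by positivity) (by positivity)).trans ?_
  rw [← Real.exp_add, ← Real.exp_nat_mul, ← Real.exp_nat_mul, ← Real.exp_add]
  refine Real.exp_le_exp.2 (le_of_eq ?_)
  ring

end

end

end Pool.Agent.H84.HR
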