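import Pool.Agent.H84.HR.BND

open Polynomial

namespace Pool.Agent.H84.HR

open Pool.Agent.H72.BF (RP Gf binP)
open Pool.Agent.H72.HR

set_option linter.unusedSectionVars false
set_option linter.unusedVariables false

noncomputable section

/-! ### products -/

theorem mprod_norm_le {ι : Type} (a : ι → ℂ) (D : ℝ) (hD : 1 ≤ D) (M : Multiset ι)
    (ha : ∀ i ∈ M, ‖a i‖ ≤ D) : ‖(M.map a).prod‖ ≤ D ^ Multiset.card M := by
  induction M using Multiset.induction_on with
  | empty => simp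
  | cons i M ih =>
    rw [Multiset.map_cons, Multiset.prod_cons, Multiset.card_cons, norm_mul, pow_succ']
    exact mul_le_mul (ha i (Multiset.mem_cons_self i M))
      (ih fun j hj => ha j (Multiset.mem_cons_of_mem hj)) (norm_nonneg _) (by linarith)

theorem mprod_sub_le {ι : Type} (a b : ι → ℂ) (D η : ℝ) (hD : 1 ≤ D) (hη : 0 ≤ η)
    (M : Multiset ι) (ha : ∀ i ∈ M, ‖a i‖ ≤ D) (hb : ∀ i ∈ M, ‖b i‖ ≤ D)
    (hab : ∀ i ∈ M, ‖a i - b i‖ ≤ η) :
    ‖(M.map a).prod - (M.map b).prod‖ ≤ Multiset.card M * D ^ Multiset.card M * η := by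
  induction M using Multiset.induction_on with
  | empty => simp
  | cons i M ih =>
    rw [Multiset.map_cons, Multiset.prod_cons, Multiset.map_cons, Multiset.prod_cons,
      Multiset.card_cons]
    have h1 : a i * (M.map a).prod - b i * (M.map b).prod =
        a i * ((M.map a).prod - (M.map b).prod) + (a i - b i) * (M.map b).prod := by ring
    rw [h1]
    have h2 := ih (fun j hj => ha j (Multiset.mem_cons_of_mem hj))
      (fun j hj => hb j (Multiset.mem_cons_of_mem hj))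
      (fun j hj => hab j (Multiset.mem_cons_of_mem hj))
    have h3 := mprod_norm_le b D hD M (fun j hj => hb j (Multiset.mem_cons_of_mem hj))
    have h4 := ha i (Multiset.mem_cons_self i M)
    have h5 := hab i (Multiset.mem_cons_self i M)
    refine (norm_add_le _ _).trans ?_
    rw [norm_mul, norm_mul]
    have h6 : ‖a i‖ * ‖(M.map a).prod - (M.map b).prod‖ ≤
        D * (Multiset.card M * D ^ Multiset.card M * η) :=
      mul_le_mul h4 h2 (norm_nonneg _) (by linarith)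
    have h7 : ‖a i - b i‖ * ‖(M.map b).prod‖ ≤ η * D ^ Multiset.card M :=
      mul_le_mul h5 h3 (norm_nonneg _) hη
    have h8 : η * D ^ Multiset.card M ≤ D ^ (Multiset.card M + 1) * η := by
      rw [pow_succ]
      have : 0 ≤ η * D ^ Multiset.card M := by positivity
      nlinarith
    push_cast
    calc ‖a i‖ * ‖(M.map a).prod - (M.map b).prod‖ + ‖a i - b i‖ * ‖(M.map b).prod‖
        ≤ D * (Multiset.card M * D ^ Multiset.card M * η) + D ^ (Multiset.card M + 1) * η :=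
          add_le_add h6 (h7.trans h8)
      _ = (Multiset.card M + 1) * D ^ (Multiset.card M + 1) * η := by
          rw [pow_succ]; ring

/-- the multiset with multiplicities `m` -/
def ms {ρ : Type} [Fintype ρ] (m : ρ → ℕ) : Multiset ρ := ∑ i, m i • {i}

theorem ms_card {ρ : Type} [Fintype ρ] (m : ρ → ℕ) : Multiset.card (ms m) = ∑ i, m i := by
  simp [ms]

theorem ms_prod {ρ : Type} [Fintype ρ] (m : ρ → ℕ) (f : ρ → ℂ) :
    ((ms m).map f).prod = ∏ i, f i ^ m i := by
  have h : ∀ s : Finset ρ, ((∑ i ∈ s, m i • ({i} : Multiset ρ)).map f).prod =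
      ∏ i ∈ s, f i ^ m i := by
    classical
    intro s
    induction s using Finset.induction_on with
    | empty => simp
    | insert i s hi ih =>
      rw [Finset.sum_insert hi, Finset.prod_insert hi, Multiset.map_add, Multiset.prod_add, ih,
        Multiset.map_nsmul, Multiset.prod_nsmul]
      simp
  exact h Finset.univ

theorem fprod_sub_le {ι : Type} [Fintype ι] (a b : ι → ℂ) (D η : ℝ) (hD : 1 ≤ D) (hη : 0 ≤ η)
    (ha : ∀ i, ‖a i‖ ≤ D) (hb : ∀ i, ‖b i‖ ≤ D) (hab : ∀ i, ‖a i - b i‖ ≤ η) :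
    ‖∏ i, a i - ∏ i, b i‖ ≤ Fintype.card ι * D ^ Fintype.card ι * η := by
  have := mprod_sub_le a b D η hD hη (Finset.univ : Finset ι).val (fun i _ => ha i)
    (fun i _ => hb i) (fun i _ => hab i)
  exact this

theorem fprod_norm_le {ι : Type} [Fintype ι] (a : ι → ℂ) (D : ℝ) (hD : 1 ≤ D)
    (ha : ∀ i, ‖a i‖ ≤ D) : ‖∏ i, a i‖ ≤ D ^ Fintype.card ι := by
  have := mprod_norm_le a D hD (Finset.univ : Finset ι).val (fun i _ => ha i)
  exact this

/-! ### the operators `d/dx + c` -/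

/-- `d/dx + c` -/
def Dop (c : ℂ) : Module.End ℂ ℂ[X] := Polynomial.derivative + c • 1

theorem gf_eq (c : ℂ) (P : ℂ[X]) (m : ℕ) : Gf 1 c P m = (Dop c ^ m) P := by
  induction m with
  | zero => rfl
  | succ m ih =>
    rw [Gf, ih, pow_succ', Module.End.mul_apply, Dop]
    simp [Polynomial.smul_eq_C_mul]

theorem gf_shift (a b : ℂ) (P : ℂ[X]) (m : ℕ) :
    Gf 1 (a - b) P m = ∑ k ∈ Finset.range (m + 1),
      ((m.choose k : ℂ) * (-b) ^ (m - k)) • Gf 1 a P k := by
  rw [gf_eq]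
  have h1 : Dop (a - b) = Dop a + (-b) • (1 : Module.End ℂ ℂ[X]) := by
    rw [Dop, Dop, sub_eq_add_neg, add_smul, add_assoc]
  have h2 : Commute (Dop a) ((-b) • (1 : Module.End ℂ ℂ[X])) :=
    (Commute.one_right (Dop a)).smul_right (-b)
  rw [h1, h2.add_pow, LinearMap.sum_apply]
  refine Finset.sum_congr rfl fun k _ => ?_
  rw [gf_eq, _root_.smul_pow, one_pow]
  have h3 : ((m.choose k : ℕ) : Module.End ℂ ℂ[X]) = (m.choose k : ℂ) • 1 := by
    rw [Nat.cast_smul_eq_nsmul, nsmul_one]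
  rw [h3]
  simp only [Module.End.mul_apply, LinearMap.smul_apply, Module.End.one_apply, map_smul, smul_smul]

theorem gf_eval_shift (a b : ℂ) (P : ℂ[X]) (m : ℕ) (s : ℂ) :
    (Gf 1 (a - b) P m).eval s * Complex.exp (a * s) = ∑ k ∈ Finset.range (m + 1),
      (m.choose k : ℂ) * (-b) ^ (m - k) * ((Gf 1 a P k).eval s * Complex.exp (a * s)) := by
  rw [gf_shift, eval_finsetSum, Finset.sum_mul]
  refine Finset.sum_congr rfl fun k _ => ?_
  rw [eval_smul, smul_eq_mul]
  ring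

/-! ### truncation -/

theorem desc_le (j k : ℕ) : (j.descFactorial k : ℝ) ≤ k.factorial * 2 ^ j := by
  have h1 : j.descFactorial k = k.factorial * j.choose k := Nat.descFactorial_eq_factorial_mul_choose j k
  have h2 : j.choose k ≤ 2 ^ j := Nat.choose_le_two_pow j k
  rw [h1]
  push_cast
  exact mul_le_mul_of_nonneg_left (by exact_mod_cast h2) (by positivity)

/-- the terms of the series -/
def gt (P : ℂ[X]) (θ s : ℂ) (k j : ℕ) : ℂ :=
  tc P θ j * (j.descFactorial k : ℂ) * s ^ (j - k)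

theorem gt_norm_le (P : ℂ[X]) (θ s : ℂ) (k j : ℕ) (σ : ℝ) (hσ : 1 ≤ σ) (hs : ‖s‖ ≤ σ) :
    ‖gt P θ s k j‖ ≤ k.factorial * (‖tc P θ j‖ * (2 * σ) ^ j) := by
  rw [gt, norm_mul, norm_mul, norm_pow, Complex.norm_natCast]
  have h1 := desc_le j k
  have h2 : ‖s‖ ^ (j - k) ≤ σ ^ j :=
    (pow_le_pow_left₀ (norm_nonneg _) hs _).trans (pow_le_pow_right₀ hσ (Nat.sub_le _ _))
  calc ‖tc P θ j‖ * (j.descFactorial k : ℝ) * ‖s‖ ^ (j - k)
      ≤ ‖tc P θ j‖ * (k.factorial * 2 ^ j) * σ ^ j :=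
        mul_le_mul (mul_le_mul_of_nonneg_left h1 (norm_nonneg _)) h2 (by positivity)
          (by positivity)
    _ = _ := by rw [mul_pow]; ring

theorem gt_tail {P : ℂ[X]} {θ s : ℂ} {k : ℕ} {σ Bd S : ℝ} {G : ℂ} (N0 : ℕ)
    (hG : HasSum (gt P θ s k) G) (hσ : 1 ≤ σ) (hs : ‖s‖ ≤ σ)
    (hB : ∀ N, ∑ j ∈ Finset.range N, ‖tc P θ j‖ * (16 * σ) ^ j ≤ Bd) :
    ‖G - ∑ j ∈ Finset.range N0, gt P θ s k j‖ ≤ k.factorial * (Real.exp (-N0) * Bd) := by
  have h1 : Filter.Tendsto (fun N => ‖∑ j ∈ Finset.range N, gt P θ s k j -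
      ∑ j ∈ Finset.range N0, gt P θ s k j‖) Filter.atTop
      (nhds ‖G - ∑ j ∈ Finset.range N0, gt P θ s k j‖) :=
    (hG.tendsto_sum_nat.sub_const _).norm
  refine le_of_tendsto h1 ?_
  filter_upwards [Filter.eventually_ge_atTop N0] with N hN
  have h2 : ∑ j ∈ Finset.range N, gt P θ s k j - ∑ j ∈ Finset.range N0, gt P θ s k j =
      ∑ j ∈ Finset.Ico N0 N, gt P θ s k j := by
    rw [Finset.sum_Ico_eq_sub _ hN]
  rw [h2]
  have h8 : Real.exp 1 ≤ 8 := by
    have := Real.exp_one_lt_d9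
    linarith
  calc ‖∑ j ∈ Finset.Ico N0 N, gt P θ s k j‖
      ≤ ∑ j ∈ Finset.Ico N0 N, ‖gt P θ s k j‖ := norm_sum_le _ _
    _ ≤ ∑ j ∈ Finset.Ico N0 N, k.factorial * (Real.exp (-N0) * (‖tc P θ j‖ * (16 * σ) ^ j)) := by
        refine Finset.sum_le_sum fun j hj => (gt_norm_le P θ s k j σ hσ hs).trans ?_
        refine mul_le_mul_of_nonneg_left ?_ (by positivity)
        have hj' : N0 ≤ j := (Finset.mem_Ico.1 hj).1
        have e1 : (16 * σ) ^ j = 8 ^ j * (2 * σ) ^ j := by rw [← mul_pow]; congr 1; ring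
        have e2 : 1 ≤ Real.exp (-N0) * 8 ^ j := by
          have e3 : Real.exp N0 ≤ 8 ^ j := by
            rw [← Real.exp_one_pow N0]
            exact (pow_le_pow_left₀ (Real.exp_pos _).le h8 N0).trans
              (pow_le_pow_right₀ (by norm_num) hj')
          rw [Real.exp_neg]
          rw [← div_eq_inv_mul, le_div_iff₀ (Real.exp_pos _), one_mul]
          exact e3
        rw [e1]
        have e4 : 0 ≤ ‖tc P θ j‖ * (2 * σ) ^ j := by positivity
        calc ‖tc P θ j‖ * (2 * σ) ^ j = 1 * (‖tc P θ j‖ * (2 * σ) ^ j) := by ring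
          _ ≤ (Real.exp (-N0) * 8 ^ j) * (‖tc P θ j‖ * (2 * σ) ^ j) :=
            mul_le_mul_of_nonneg_right e2 e4
          _ = _ := by ring
    _ = k.factorial * (Real.exp (-N0) * ∑ j ∈ Finset.Ico N0 N, ‖tc P θ j‖ * (16 * σ) ^ j) := by
        rw [Finset.mul_sum, Finset.mul_sum]
    _ ≤ k.factorial * (Real.exp (-N0) * Bd) := by
        refine mul_le_mul_of_nonneg_left (mul_le_mul_of_nonneg_left ?_ (Real.exp_pos _).le)
          (by positivity)
        refine le_trans ?_ (hB N)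
        refine Finset.sum_le_sum_of_subset_of_nonneg ?_ fun i _ _ => by positivity
        intro i hi
        exact Finset.mem_range.2 (Finset.mem_Ico.1 hi).2

theorem gt_partial {P : ℂ[X]} {θ s : ℂ} {k : ℕ} {σ Bd : ℝ} (N0 : ℕ)
    (hσ : 1 ≤ σ) (hs : ‖s‖ ≤ σ)
    (hB : ∀ N, ∑ j ∈ Finset.range N, ‖tc P θ j‖ * (16 * σ) ^ j ≤ Bd) :
    ‖∑ j ∈ Finset.range N0, gt P θ s k j‖ ≤ k.factorial * Bd := by
  calc ‖∑ j ∈ Finset.range N0, gt P θ s k j‖
      ≤ ∑ j ∈ Finset.range N0, ‖gt P θ s k j‖ := norm_sum_le _ _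
    _ ≤ ∑ j ∈ Finset.range N0, k.factorial * (‖tc P θ j‖ * (16 * σ) ^ j) := by
        refine Finset.sum_le_sum fun j hj => (gt_norm_le P θ s k j σ hσ hs).trans ?_
        refine mul_le_mul_of_nonneg_left (mul_le_mul_of_nonneg_left ?_ (norm_nonneg _))
          (by positivity)
        exact pow_le_pow_left₀ (by positivity) (by linarith) j
    _ ≤ k.factorial * Bd := by
        rw [← Finset.mul_sum]
        exact mul_le_mul_of_nonneg_left (hB N0) (by positivity)

theorem gt_full {P : ℂ[X]} {θ s : ℂ} {k : ℕ} {σ Bd : ℝ} {G : ℂ}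
    (hG : HasSum (gt P θ s k) G) (hσ : 1 ≤ σ) (hs : ‖s‖ ≤ σ)
    (hB : ∀ N, ∑ j ∈ Finset.range N, ‖tc P θ j‖ * (16 * σ) ^ j ≤ Bd) :
    ‖G‖ ≤ k.factorial * Bd :=
  le_of_tendsto hG.tendsto_sum_nat.norm
    (Filter.Eventually.of_forall fun N => gt_partial N hσ hs hB)

/-- expansion of a product of sums -/
theorem sum_trunc {U ρ : Type} [Fintype U] [Fintype ρ] [DecidableEq ρ] (F : U → ℂ)
    (t : U → ρ → ℕ → ℂ) (wt : ρ → ℕ → ℂ) (N : ρ → ℕ) (S : ℝ) (hS0 : 0 ≤ S)
    (hS : ∀ j : ρ → ℕ, (∀ i, j i < N i) → ‖∑ u, F u * ∏ i, t u i (j i)‖ ≤ S) (Bd : ρ → ℝ)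
    (hB : ∀ i, ∑ j ∈ Finset.range (N i), ‖wt i j‖ ≤ Bd i) :
    ‖∑ u, F u * ∏ i, ∑ j ∈ Finset.range (N i), wt i j * t u i j‖ ≤ (∏ i, Bd i) * S := by
  have h1 : ∑ u, F u * ∏ i, ∑ j ∈ Finset.range (N i), wt i j * t u i j =
      ∑ j ∈ Fintype.piFinset (fun i => Finset.range (N i)),
        (∏ i, wt i (j i)) * ∑ u, F u * ∏ i, t u i (j i) := by
    simp_rw [Finset.prod_univ_sum, Finset.mul_sum]
    rw [Finset.sum_comm]
    refine Finset.sum_congr rfl fun j _ => Finset.sum_congr rfl fun u _ => ?_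
    rw [Finset.prod_mul_distrib]
    ring
  rw [h1]
  calc ‖∑ j ∈ Fintype.piFinset (fun i => Finset.range (N i)),
        (∏ i, wt i (j i)) * ∑ u, F u * ∏ i, t u i (j i)‖
      ≤ ∑ j ∈ Fintype.piFinset (fun i => Finset.range (N i)), (∏ i, ‖wt i (j i)‖) * S := by
        refine (norm_sum_le _ _).trans (Finset.sum_le_sum fun j hj => ?_)
        rw [norm_mul, norm_prod]
        refine mul_le_mul_of_nonneg_left (hS j fun i => ?_)
          (Finset.prod_nonneg fun i _ => norm_nonneg _)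
        exact Finset.mem_range.1 (Fintype.mem_piFinset.1 hj i)
    _ = (∏ i, ∑ j ∈ Finset.range (N i), ‖wt i j‖) * S := by
        rw [Finset.prod_univ_sum, Finset.sum_mul]
    _ ≤ (∏ i, Bd i) * S := by
        refine mul_le_mul_of_nonneg_right ?_ hS0
        exact Finset.prod_le_prod (fun i _ => Finset.sum_nonneg fun j _ => norm_nonneg _)
          fun i _ => hB i

/-- expansion of the powers of linear forms -/
theorem lin_exp {U ρ τ : Type} [Fintype U] [Fintype τ] [DecidableEq τ] {c w : ℕ}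
    (f : U → τ → ℂ) (e : U → Fin w → ℂ) (F : U → ℂ) (Lc : ρ → τ → ℂ) (bc : ρ → Fin w → ℂ)
    (G : ℕ) (S Λ : ℝ) (hS0 : 0 ≤ S) (hΛ0 : 0 ≤ Λ) (ν : Fin c → τ) (hν : ∀ u l, f u (ν l) = 0)
    (hΛ : ∀ i, ∑ a, ‖Lc i a‖ + ∑ j, ‖bc i j‖ ≤ Λ)
    (hS : ∀ (y : τ → ℕ) (z : Fin w → ℕ), (∀ l, y (ν l) = 0) → (∀ a, y a ≤ G) → (∀ j, z j ≤ G) →
      ‖∑ u, F u * (∏ a, f u a ^ y a) * (∏ j, e u j ^ z j)‖ ≤ S) :
    ∀ (Mt : Multiset ρ) (y : τ → ℕ) (z : Fin w → ℕ), (∀ l, y (ν l) = 0) →
      (∀ a, y a + Multiset.card Mt ≤ G) → (∀ j, z j + Multiset.card Mt ≤ G) →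
      ‖∑ u, F u * (∏ a, f u a ^ y a) * (∏ j, e u j ^ z j) *
        (Mt.map (fun i => ∑ a, Lc i a * f u a + ∑ j, bc i j * e u j)).prod‖ ≤
        Λ ^ Multiset.card Mt * S := by
  intro Mt
  induction Mt using Multiset.induction_on with
  | empty =>
    intro y z hy hyG hzG
    simp only [Multiset.map_zero, Multiset.prod_zero, mul_one, Multiset.card_zero, pow_zero,
      one_mul]
    exact hS y z hy (fun a => by simpa using hyG a) (fun j => by simpa using hzG j)
  | cons i Mt ih =>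
    intro y z hy hyG hzG
    rw [Multiset.card_cons] at hyG hzG ⊢
    set P : U → ℂ := fun u =>
      (Mt.map (fun i => ∑ a, Lc i a * f u a + ∑ j, bc i j * e u j)).prod with hP
    have e1 : ∀ u (a : τ), (∏ a', f u a' ^ ((y + Pi.single a 1 : τ → ℕ) a')) =
        (∏ a', f u a' ^ y a') * f u a := by
      intro u a
      simp only [Pi.add_apply, pow_add, Finset.prod_mul_distrib, Pi.single_apply]
      congr 1
      simp
    have e2 : ∀ u (j : Fin w), (∏ j', e u j' ^ ((z + Pi.single j 1 : Fin w → ℕ) j')) =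
        (∏ j', e u j' ^ z j') * e u j := by
      intro u j
      simp only [Pi.add_apply, pow_add, Finset.prod_mul_distrib, Pi.single_apply]
      congr 1
      simp
    have h1 : ∑ u, F u * (∏ a, f u a ^ y a) * (∏ j, e u j ^ z j) *
        (((i ::ₘ Mt).map (fun i => ∑ a, Lc i a * f u a + ∑ j, bc i j * e u j)).prod) =
        ∑ a, Lc i a * ∑ u, F u * (∏ a', f u a' ^ ((y + Pi.single a 1 : τ → ℕ) a')) *
          (∏ j, e u j ^ z j) * P u +
        ∑ j, bc i j * ∑ u, F u * (∏ a', f u a' ^ y a') *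
          (∏ j', e u j' ^ ((z + Pi.single j 1 : Fin w → ℕ) j')) * P u := by
      simp_rw [e1, e2, Finset.mul_sum]
      rw [Finset.sum_comm, Finset.sum_comm (s := (Finset.univ : Finset (Fin w))),
        ← Finset.sum_add_distrib]
      refine Finset.sum_congr rfl fun u _ => ?_
      rw [Multiset.map_cons, Multiset.prod_cons, hP]
      simp only
      rw [add_mul, mul_add, Finset.sum_mul, Finset.sum_mul, Finset.mul_sum, Finset.mul_sum]
      congr 1
      · exact Finset.sum_congr rfl fun a _ => by ring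
      · exact Finset.sum_congr rfl fun a _ => by ring
    rw [h1]
    have hK0 : 0 ≤ Λ ^ Multiset.card Mt * S := by positivity
    have h2 : ∀ a, ‖∑ u, F u * (∏ a', f u a' ^ ((y + Pi.single a 1 : τ → ℕ) a')) *
          (∏ j, e u j ^ z j) * P u‖ ≤ Λ ^ Multiset.card Mt * S := by
      intro a
      by_cases ha : ∃ l, ν l = a
      · obtain ⟨l, rfl⟩ := ha
        have : ∑ u, F u * (∏ a', f u a' ^ ((y + Pi.single (ν l) 1 : τ → ℕ) a')) *
          (∏ j, e u j ^ z j) * P u = 0 := by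
          refine Finset.sum_eq_zero fun u _ => ?_
          rw [e1, hν]
          ring
        rw [this, norm_zero]
        exact hK0
      · refine ih (y + Pi.single a 1) z ?_ ?_ ?_
        · intro l
          have : ν l ≠ a := fun h => ha ⟨l, h⟩
          simp [hy l, this]
        · intro a'
          have := hyG a'
          have h3 : (Pi.single a 1 : τ → ℕ) a' ≤ 1 := by
            rw [Pi.single_apply]; split_ifs <;> omega
          simp only [Pi.add_apply]
          omega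
        · intro j
          have := hzG j
          omega
    have h3 : ∀ j, ‖∑ u, F u * (∏ a', f u a' ^ y a') *
          (∏ j', e u j' ^ ((z + Pi.single j 1 : Fin w → ℕ) j')) * P u‖ ≤
          Λ ^ Multiset.card Mt * S := by
      intro j
      refine ih y (z + Pi.single j 1) hy ?_ ?_
      · intro a
        have := hyG a
        omega
      · intro j'
        have := hzG j'
        have h3 : (Pi.single j 1 : Fin w → ℕ) j' ≤ 1 := by
          rw [Pi.single_apply]; split_ifs <;> omega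
        simp only [Pi.add_apply]
        omega
    calc _ ≤ ∑ a, ‖Lc i a‖ * (Λ ^ Multiset.card Mt * S) +
          ∑ j, ‖bc i j‖ * (Λ ^ Multiset.card Mt * S) := by
          refine (norm_add_le _ _).trans (add_le_add ?_ ?_)
          · refine (norm_sum_le _ _).trans (Finset.sum_le_sum fun a _ => ?_)
            rw [norm_mul]
            exact mul_le_mul_of_nonneg_left (h2 a) (norm_nonneg _)
          · refine (norm_sum_le _ _).trans (Finset.sum_le_sum fun j _ => ?_)
            rw [norm_mul]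
            exact mul_le_mul_of_nonneg_left (h3 j) (norm_nonneg _)
      _ = (∑ a, ‖Lc i a‖ + ∑ j, ‖bc i j‖) * (Λ ^ Multiset.card Mt * S) := by
          rw [← Finset.sum_mul, ← Finset.sum_mul, add_mul]
      _ ≤ Λ * (Λ ^ Multiset.card Mt * S) := mul_le_mul_of_nonneg_right (hΛ i) hK0
      _ = Λ ^ (Multiset.card Mt + 1) * S := by rw [pow_succ]; ring

theorem fact_le {g Q h k : ℕ} (hg : 1 ≤ g) (hgh : g ^ Q ≤ h) (hk : k ≤ g ^ Q) :
    (k.factorial : ℝ) ≤ Real.exp (h * (g : ℝ) ^ Q) := by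
  have h1 : k.factorial ≤ (g ^ Q) ^ (g ^ Q) :=
    (Nat.factorial_le_pow k).trans ((Nat.pow_le_pow_left hk k).trans
      (Nat.pow_le_pow_right (Nat.one_le_pow _ _ hg) hk))
  have h2 : ((g ^ Q : ℕ) : ℝ) ≤ Real.exp h := by
    have e1 : ((g ^ Q : ℕ) : ℝ) ≤ h := by exact_mod_cast hgh
    linarith [Real.add_one_le_exp (h : ℝ)]
  calc (k.factorial : ℝ) ≤ (((g ^ Q) ^ (g ^ Q) : ℕ) : ℝ) := by exact_mod_cast h1
    _ = ((g ^ Q : ℕ) : ℝ) ^ (g ^ Q) := by push_cast; ring
    _ ≤ Real.exp h ^ (g ^ Q) := pow_le_pow_left₀ (Nat.cast_nonneg _) h2 _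
    _ = Real.exp (h * (g : ℝ) ^ Q) := by
        rw [← Real.exp_nat_mul]; push_cast; congr 1; ring

end

end Pool.Agent.H84.HR
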